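import Pool.Agent.H211.HY.Stm2
import Pool.Graph.R_seed8.H790R3.RB.Basic
import Pool.Graph.R_seed8.H790R3.RB.TPOLY

/-! HY211 OMIT: omitted points far from a given point (helper51) -/

set_option autoImplicit false

open Topology Filter Metric Set MeasureTheory Polynomial

namespace Pool.Agent.H51.HY211.Omit

open Pool.Agent.H790R3.RB Pool.Agent.H211.HY

theorem N2_eq (p : ℂ × ℂ) : N2 p = ‖(WithLp.toLp 2 p : WithLp 2 (ℂ × ℂ))‖ ^ 2 := by
  rw [WithLp.prod_norm_sq_eq_of_L2]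
  rfl

theorem cho_eq (p q : ℂ × ℂ) : cho p q = ‖cr p q‖ /
    (‖(WithLp.toLp 2 p : WithLp 2 (ℂ × ℂ))‖ * ‖(WithLp.toLp 2 q : WithLp 2 (ℂ × ℂ))‖) := by
  unfold cho
  rw [N2_eq, N2_eq, ← mul_pow, Real.sqrt_sq (by positivity)]

theorem pos_of_ne {p : ℂ × ℂ} (hp : p ≠ 0) : 0 < ‖(WithLp.toLp 2 p : WithLp 2 (ℂ × ℂ))‖ := by
  rw [norm_pos_iff]
  intro h
  apply hp
  have := congrArg WithLp.ofLp h
  simpa using this

theorem cho_tri {p q r : ℂ × ℂ} (hp : p ≠ 0) (hq : q ≠ 0) (hr : r ≠ 0) :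
    cho p r ≤ cho p q + cho q r := by
  have h1 : cr p r • q = cr q r • p + cr p q • r := by
    apply Prod.ext
    · simp only [Prod.smul_fst, Prod.fst_add, smul_eq_mul, cr]
      ring
    · simp only [Prod.smul_snd, Prod.snd_add, smul_eq_mul, cr]
      ring
  have h2 : cr p r • (WithLp.toLp 2 q : WithLp 2 (ℂ × ℂ)) = cr q r • WithLp.toLp 2 p +
      cr p q • WithLp.toLp 2 r := by
    rw [← WithLp.toLp_smul, h1, WithLp.toLp_add, WithLp.toLp_smul, WithLp.toLp_smul]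
  have h3 := norm_add_le (cr q r • (WithLp.toLp 2 p : WithLp 2 (ℂ × ℂ)))
    (cr p q • (WithLp.toLp 2 r : WithLp 2 (ℂ × ℂ)))
  rw [← h2, norm_smul, norm_smul, norm_smul] at h3
  have hp' := pos_of_ne hp
  have hq' := pos_of_ne hq
  have hr' := pos_of_ne hr
  rw [cho_eq, cho_eq, cho_eq, div_add_div _ _ (by positivity) (by positivity),
    div_le_div_iff₀ (by positivity) (by positivity)]
  nlinarith [mul_le_mul_of_nonneg_left h3 (show 0 ≤ ‖(WithLp.toLp 2 p : WithLp 2 (ℂ × ℂ))‖ *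
    ‖(WithLp.toLp 2 q : WithLp 2 (ℂ × ℂ))‖ * ‖(WithLp.toLp 2 r : WithLp 2 (ℂ × ℂ))‖ by positivity)]

theorem cho_comm (p q : ℂ × ℂ) : cho p q = cho q p := by
  rw [cho_eq, cho_eq, cr_comm, norm_neg, mul_comm (‖WithLp.toLp 2 p‖)]

/-- the opposite direction -/
noncomputable def opp (a : ℂ × ℂ) : ℂ × ℂ := (-(starRingEnd ℂ) a.2, (starRingEnd ℂ) a.1)

theorem opp_ne {a : ℂ × ℂ} (ha : a ≠ 0) : opp a ≠ 0 := by
  intro h
  apply ha
  have h1 := congrArg Prod.fst h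
  have h2 := congrArg Prod.snd h
  simp only [opp, Prod.fst_zero, Prod.snd_zero, neg_eq_zero, map_eq_zero] at h1 h2
  exact Prod.ext h2 h1

theorem cho_opp {a : ℂ × ℂ} (ha : a ≠ 0) : cho (opp a) a = 1 := by
  have h1 : cr (opp a) a = -((N2 a : ℝ) : ℂ) := by
    unfold cr opp N2
    simp only
    push_cast
    rw [← Complex.mul_conj', ← Complex.mul_conj']
    ring
  have h2 : N2 (opp a) = N2 a := by
    unfold opp N2
    simp only [norm_neg, RCLike.norm_conj]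
    ring
  have h3 : 0 < N2 a := by
    rw [N2_eq]
    have := pos_of_ne ha
    positivity
  unfold cho
  rw [h1, h2, norm_neg, Complex.norm_real, Real.norm_eq_abs, abs_of_pos h3, Real.sqrt_mul_self h3.le,
    div_self h3.ne']

/-- the polynomial whose roots are the preimages of the direction `v` -/
theorem pre_poly {d : ℕ} (x : CV d) (hd : 2 ≤ d) (n : ℕ) (v : ℂ × ℂ) : ∃ P : ℂ[X],
    (∀ ζ : ℂ, P.eval ζ = cr ((hF x)^[n] (ζ, 1)) v) ∧ P.natDegree ≤ d ^ n ∧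
    P.coeff (d ^ n) = cr ((hF x)^[n] (1, 0)) v := by
  obtain ⟨A, B, hA, hB, hA1, hB1, hA2, hB2⟩ := POLY d x n (by omega)
  refine ⟨A * C v.2 - B * C v.1, ?_, ?_, ?_⟩
  · intro ζ
    rw [eval_sub, eval_mul, eval_mul, eval_C, eval_C, hA1, hB1]
    rfl
  · refine (natDegree_sub_le _ _).trans (max_le ?_ ?_)
    · exact (natDegree_mul_C_le _ _).trans hA
    · exact (natDegree_mul_C_le _ _).trans hB
  · rw [coeff_sub, coeff_mul_C, coeff_mul_C, hA2, hB2]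
    rfl

theorem surj {d : ℕ} (x : CV d) (hd : 2 ≤ d) (n : ℕ) (v : ℂ × ℂ) :
    ∃ q : ℂ × ℂ, q ≠ 0 ∧ cr ((hF x)^[n] q) v = 0 := by
  obtain ⟨P, h1, h2, h3⟩ := pre_poly x hd n v
  by_cases h0 : cr ((hF x)^[n] (1, 0)) v = 0
  · exact ⟨(1, 0), by simp, h0⟩
  · have h4 : d ^ n ≤ P.natDegree := le_natDegree_of_ne_zero (by rwa [h3])
    have h5 : P.degree ≠ 0 := by
      intro h
      have h6 : P.natDegree = 0 := natDegree_eq_zero_iff_degree_le_zero.2 (le_of_eq h)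
      rw [h6] at h4
      have : 0 < d ^ n := by positivity
      omega
    obtain ⟨ζ, hζ⟩ := IsAlgClosed.exists_root P h5
    exact ⟨(ζ, 1), by simp, by rw [← h1]; exact hζ⟩

theorem fib_finite {d : ℕ} (x : CV d) (hd : 2 ≤ d) (hx : ND x) (n : ℕ) {v : ℂ × ℂ} (hv : v ≠ 0) :
    {ζ : ℂ | cr ((hF x)^[n] (ζ, 1)) v = 0}.Finite := by
  obtain ⟨P, h1, h2, h3⟩ := pre_poly x hd n v
  have hP : P ≠ 0 := by
    intro h0
    have hall : ∀ q : ℂ × ℂ, q ≠ 0 → cr ((hF x)^[n] q) v = 0 := by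
      intro q hq
      by_cases h2 : q.2 = 0
      · have h4 : q = q.1 • ((1, 0) : ℂ × ℂ) := by
          apply Prod.ext
          · simp
          · simp [h2]
        rw [h4, hF_iter_smul, cr_smul_left, ← h3, h0, coeff_zero, mul_zero]
      · have h4 : q = q.2 • ((q.1 / q.2, 1) : ℂ × ℂ) := by
          apply Prod.ext
          · simp only [Prod.smul_fst, smul_eq_mul]
            field_simp
          · simp
        rw [h4, hF_iter_smul, cr_smul_left, ← h1, h0, eval_zero, mul_zero]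
    obtain ⟨q, hq, hq2⟩ := surj x hd n (opp v)
    have h5 : cr v (opp v) = 0 := by
      have h6 : cr v ((hF x)^[n] q) = 0 := by rw [cr_comm, hall q hq, neg_zero]
      exact cr_trans (hx.iter_ne n hq) h6 hq2
    have h7 := cho_opp hv
    rw [cho_comm, cho] at h7
    rw [h5, norm_zero, zero_div] at h7
    exact zero_ne_one h7
  refine (P.roots.toFinset.finite_toSet).subset fun ζ hζ => ?_
  simp only [Finset.mem_coe, Multiset.mem_toFinset]
  rw [mem_roots hP]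
  show P.eval ζ = 0
  rw [h1]
  exact hζ

/-- two points with different images are not mapped into a small ball -/
theorem sep {u v : ℂ × ℂ} (hu : u ≠ 0) (hv : v ≠ 0) (huv : cr u v ≠ 0) : ∃ R > (0 : ℝ), ∀ y : ℂ,
    (∀ w ∈ ball y R, cr u (w, 1) ≠ 0) ∨ ∀ w ∈ ball y R, cr v (w, 1) ≠ 0 := by
  by_cases hu2 : u.2 = 0
  · refine ⟨1, one_pos, fun y => Or.inl fun w _ => ?_⟩
    have h1 : u.1 ≠ 0 := fun h => hu (Prod.ext h hu2)
    simpa [cr, hu2] using h1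
  by_cases hv2 : v.2 = 0
  · refine ⟨1, one_pos, fun y => Or.inr fun w _ => ?_⟩
    have h1 : v.1 ≠ 0 := fun h => hv (Prod.ext h hv2)
    simpa [cr, hv2] using h1
  have hne : u.1 / u.2 - v.1 / v.2 ≠ 0 := by
    intro h
    apply huv
    unfold cr
    rw [sub_eq_zero, div_eq_div_iff hu2 hv2] at h
    rw [h]
    ring
  have hpos : 0 < ‖u.1 / u.2 - v.1 / v.2‖ := norm_pos_iff.2 hne
  refine ⟨‖u.1 / u.2 - v.1 / v.2‖ / 2, by positivity, fun y => ?_⟩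
  by_contra hcon
  push Not at hcon
  obtain ⟨⟨w, hw, hw0⟩, w', hw', hw0'⟩ := hcon
  have e1 : w = u.1 / u.2 := by
    rw [eq_div_iff hu2]
    unfold cr at hw0
    linear_combination -hw0
  have e2 : w' = v.1 / v.2 := by
    rw [eq_div_iff hv2]
    unfold cr at hw0'
    linear_combination -hw0'
  rw [mem_ball] at hw hw'
  have h3 : dist w w' ≤ dist w y + dist w' y := dist_triangle_right _ _ _
  rw [dist_eq_norm w w', e1, e2] at h3
  rw [e1] at hw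
  rw [e2] at hw'
  linarith

theorem one_n {d : ℕ} (x : CV d) (hd : 2 ≤ d) (hx : ND x) (n : ℕ) : ∃ R > (0 : ℝ),
    ∀ (y : ℂ) (a : ℂ × ℂ), a ≠ 0 →
      ∃ q : ℂ × ℂ, q ≠ 0 ∧ 1 / 2 ≤ cho q a ∧ ∀ w ∈ ball y R, cr ((hF x)^[n] q) (w, 1) ≠ 0 := by
  -- the first pair of antipodal points
  set p1 : ℂ × ℂ := (1, 0) with hp1
  have hp1n : p1 ≠ 0 := by simp [hp1]
  set p2 : ℂ × ℂ := opp p1 with hp2
  have hp2n : p2 ≠ 0 := opp_ne hp1n
  have hf1 := fib_finite x hd hx n (hx.iter_ne n hp1n)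
  have hf2 := fib_finite x hd hx n (hx.iter_ne n hp2n)
  set S : Set ℂ := {ζ : ℂ | cr ((hF x)^[n] (ζ, 1)) ((hF x)^[n] p1) = 0} ∪
    {ζ : ℂ | cr ((hF x)^[n] (ζ, 1)) ((hF x)^[n] p2) = 0} with hS
  have hSf : S.Finite := hf1.union hf2
  -- the second pair
  obtain ⟨t, ht0, htS, htS'⟩ : ∃ t : ℕ, 0 < t ∧ ((t : ℕ) : ℂ) ∉ S ∧ (-(1 / ((t : ℕ) : ℂ))) ∉ S := by
    have g1 : {t : ℕ | ((t : ℕ) : ℂ) ∈ S}.Finite :=
      hSf.preimage (fun a _ b _ h => by exact_mod_cast h)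
    have g2 : {t : ℕ | (-(1 / ((t : ℕ) : ℂ))) ∈ S}.Finite := by
      refine hSf.preimage (fun a _ b _ h => ?_)
      have h1 : (1 : ℂ) / ((a : ℕ) : ℂ) = 1 / ((b : ℕ) : ℂ) := neg_injective h
      rw [one_div, one_div, inv_inj] at h1
      exact_mod_cast h1
    have g3 := ((g1.union g2).union (Set.finite_singleton 0)).infinite_compl
    obtain ⟨t, ht⟩ := g3.nonempty
    simp only [mem_compl_iff, mem_union, mem_ofPred_eq, mem_singleton_iff, not_or] at ht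
    exact ⟨t, Nat.pos_of_ne_zero ht.2, ht.1.1, ht.1.2⟩
  set r1 : ℂ × ℂ := ((t : ℂ), 1) with hr1
  have hr1n : r1 ≠ 0 := by simp [hr1]
  set r2 : ℂ × ℂ := opp r1 with hr2
  have hr2n : r2 ≠ 0 := opp_ne hr1n
  have htc : (t : ℂ) ≠ 0 := by exact_mod_cast ht0.ne'
  have hr2e : r2 = (t : ℂ) • ((-(1 / (t : ℂ)), 1) : ℂ × ℂ) := by
    rw [hr2, hr1]
    apply Prod.ext
    · simp only [opp, map_one, Prod.smul_fst, smul_eq_mul]
      field_simp
    · simp [opp]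
  simp only [hS, mem_union, mem_ofPred_eq, not_or] at htS htS'
  have key : ∀ p ∈ ({p1, p2} : Set (ℂ × ℂ)), ∀ r ∈ ({r1, r2} : Set (ℂ × ℂ)),
      cr ((hF x)^[n] p) ((hF x)^[n] r) ≠ 0 := by
    have k1 : ∀ p ∈ ({p1, p2} : Set (ℂ × ℂ)), cr ((hF x)^[n] r1) ((hF x)^[n] p) ≠ 0 := by
      rintro p (rfl | rfl)
      · exact htS.1
      · exact htS.2
    have k2 : ∀ p ∈ ({p1, p2} : Set (ℂ × ℂ)), cr ((hF x)^[n] r2) ((hF x)^[n] p) ≠ 0 := by
      have hpow : ((t : ℂ) ^ d ^ n) ≠ 0 := pow_ne_zero _ htc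
      rintro p (rfl | rfl)
      · rw [hr2e, hF_iter_smul, cr_smul_left]
        exact mul_ne_zero hpow htS'.1
      · rw [hr2e, hF_iter_smul, cr_smul_left]
        exact mul_ne_zero hpow htS'.2
    rintro p hp r (rfl | rfl)
    · rw [cr_comm]
      exact neg_ne_zero.2 (k1 p hp)
    · rw [cr_comm]
      exact neg_ne_zero.2 (k2 p hp)
  have hpn : ∀ p ∈ ({p1, p2} : Set (ℂ × ℂ)), p ≠ 0 := by
    rintro p (rfl | rfl)
    · exact hp1n
    · exact hp2n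
  have hrn : ∀ r ∈ ({r1, r2} : Set (ℂ × ℂ)), r ≠ 0 := by
    rintro r (rfl | rfl)
    · exact hr1n
    · exact hr2n
  have half : ∀ c : ℂ × ℂ, c ≠ 0 → ∀ a : ℂ × ℂ, a ≠ 0 → 1 / 2 ≤ cho c a ∨ 1 / 2 ≤ cho (opp c) a := by
    intro c hc a ha
    have h1 := cho_tri (opp_ne hc) ha hc
    rw [cho_opp hc, cho_comm a c] at h1
    by_contra hcon
    push Not at hcon
    linarith [hcon.1, hcon.2]
  have hsep : ∀ p ∈ ({p1, p2} : Set (ℂ × ℂ)), ∀ r ∈ ({r1, r2} : Set (ℂ × ℂ)), ∃ R > (0 : ℝ),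
      ∀ y : ℂ, (∀ w ∈ ball y R, cr ((hF x)^[n] p) (w, 1) ≠ 0) ∨
        ∀ w ∈ ball y R, cr ((hF x)^[n] r) (w, 1) ≠ 0 := by
    intro p hp r hr
    exact sep (hx.iter_ne n (hpn p hp)) (hx.iter_ne n (hrn r hr)) (key p hp r hr)
  obtain ⟨R11, hR11, h11⟩ := hsep p1 (by simp) r1 (by simp)
  obtain ⟨R12, hR12, h12⟩ := hsep p1 (by simp) r2 (by simp)
  obtain ⟨R21, hR21, h21⟩ := hsep p2 (by simp) r1 (by simp)
  obtain ⟨R22, hR22, h22⟩ := hsep p2 (by simp) r2 (by simp)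
  refine ⟨min (min R11 R12) (min R21 R22), by positivity, fun y a ha => ?_⟩
  have fin : ∀ p r : ℂ × ℂ, p ≠ 0 → r ≠ 0 → 1 / 2 ≤ cho p a → 1 / 2 ≤ cho r a → ∀ R' : ℝ,
      min (min R11 R12) (min R21 R22) ≤ R' →
      ((∀ w ∈ ball y R', cr ((hF x)^[n] p) (w, 1) ≠ 0) ∨
        ∀ w ∈ ball y R', cr ((hF x)^[n] r) (w, 1) ≠ 0) →
      ∃ q : ℂ × ℂ, q ≠ 0 ∧ 1 / 2 ≤ cho q a ∧
        ∀ w ∈ ball y (min (min R11 R12) (min R21 R22)), cr ((hF x)^[n] q) (w, 1) ≠ 0 := by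
    intro p r hp hr hpa hra R' hR' h
    rcases h with h | h
    · exact ⟨p, hp, hpa, fun w hw => h w (ball_subset_ball hR' hw)⟩
    · exact ⟨r, hr, hra, fun w hw => h w (ball_subset_ball hR' hw)⟩
  rcases half p1 hp1n a ha with ha1 | ha1 <;> rcases half r1 hr1n a ha with ha2 | ha2
  · exact fin p1 r1 hp1n hr1n ha1 ha2 R11 (by simp) (h11 y)
  · exact fin p1 r2 hp1n hr2n ha1 ha2 R12 (by simp) (h12 y)
  · exact fin p2 r1 hp2n hr1n ha1 ha2 R21 (by simp) (h21 y)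
  · exact fin p2 r2 hp2n hr2n ha1 ha2 R22 (by simp) (h22 y)

theorem min_pos (R : ℕ → ℝ) (hR : ∀ n, 0 < R n) (N : ℕ) : ∃ r > (0 : ℝ), ∀ n < N, r ≤ R n := by
  induction N with
  | zero => exact ⟨1, one_pos, fun n hn => absurd hn (Nat.not_lt_zero n)⟩
  | succ N ih =>
    obtain ⟨r, hr, h⟩ := ih
    refine ⟨min r (R N), lt_min hr (hR N), fun n hn => ?_⟩
    rcases Nat.lt_succ_iff_lt_or_eq.1 hn with h1 | rfl
    · exact (min_le_left _ _).trans (h n h1)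
    · exact min_le_right _ _

end Pool.Agent.H51.HY211.Omit

namespace Pool.Agent.H51.HY211

open Pool.Agent.H790R3.RB Pool.Agent.H211.HY Omit

theorem t_OMIT : S_OMIT := by
  intro d x hd hx hleo
  obtain ⟨N, hN⟩ := hleo (1 / 4) (by norm_num)
  choose R hR hR2 using one_n x hd hx
  obtain ⟨r, hr, hr2⟩ := min_pos R hR N
  refine ⟨r, hr, fun n y a ha => ?_⟩
  by_cases hn : n < N
  · obtain ⟨q, h1, h2, h3⟩ := hR2 n y a ha
    exact ⟨q, h1, h2, fun w hw => h3 w (ball_subset_ball (hr2 n hn) hw)⟩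
  · obtain ⟨q, h1, h2, h3⟩ := hN n (not_lt.1 hn) (opp a) (1, 0) (opp_ne ha) (by simp)
    refine ⟨q, h1, ?_, fun w _ => ?_⟩
    · have h4 := cho_tri (opp_ne ha) h1 ha
      rw [cho_opp ha] at h4
      linarith
    · have h5 := hx.iter_ne n h1
      unfold cr at h3 ⊢
      simp only [mul_zero, mul_one, zero_sub, neg_eq_zero] at h3 ⊢
      intro h6
      rw [h3, zero_mul, sub_zero] at h6
      exact h5 (Prod.ext h6 h3)

end Pool.Agent.H51.HY211
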