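import Pool.Agent.H211.HY.Stm2
import Pool.Graph.R_seed8.H713R3.ZA.TROOT
import Pool.Graph.R_seed8.H790R3.RB.Basic
import Pool.Graph.R_seed8.H790R3.RB.TWR

/-! HY211 LIFT: lifting a map from a ball to the sphere through a rational map (helper51) -/

set_option autoImplicit false

open Topology Filter Metric Set MeasureTheory Polynomial

namespace Pool.Agent.H51.HY211

open Pool.Agent.H790R3.RB Pool.Agent.H211.HY

theorem hF_contDiff1 {d : ℕ} (x : CV d) : ContDiff ℂ 1 (hF x) :=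
  (hF_contDiff d 1).comp (contDiff_const.prodMk contDiff_id)

theorem euler {d : ℕ} (x : CV d) (p : ℂ × ℂ) : fderiv ℂ (hF x) p p = (d : ℂ) • hF x p := by
  have h1 : HasDerivAt (fun t : ℂ => t • p) p 1 := by
    simpa using (hasDerivAt_id (1 : ℂ)).smul_const p
  have hd : HasFDerivAt (hF x) (fderiv ℂ (hF x) p) ((1 : ℂ) • p) := by
    rw [one_smul]
    exact ((hF_contDiff1 x).differentiable (by norm_num) p).hasFDerivAt
  have h2 : HasDerivAt (hF x ∘ fun t : ℂ => t • p) (fderiv ℂ (hF x) p p) 1 :=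
    HasFDerivAt.comp_hasDerivAt (1 : ℂ) hd h1
  have h3 : HasDerivAt (fun t : ℂ => t ^ d • hF x p) ((d : ℂ) • hF x p) 1 := by
    have := (hasDerivAt_pow d (1 : ℂ)).smul_const (hF x p)
    simpa using this
  have h4 : (hF x ∘ fun t : ℂ => t • p) = fun t : ℂ => t ^ d • hF x p := by
    funext t
    exact hF_smul x t p
  rw [h4] at h2
  exact h2.unique h3

theorem exists_crit {d : ℕ} (x : CV d) (hd : 2 ≤ d) : ∃ c : ℂ × ℂ, c ≠ 0 ∧ wr x c = 0 := by
  obtain ⟨-, ⟨W, hW1, hW2, hW3⟩, -⟩ := WR d x hd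
  by_cases h0 : wr x (1, 0) = 0
  · exact ⟨(1, 0), by simp, h0⟩
  · have h1 : W.coeff (2 * d - 2) ≠ 0 := by rwa [hW3]
    have h2 : 2 * d - 2 ≤ W.natDegree := le_natDegree_of_ne_zero h1
    have h3 : W.degree ≠ 0 := by
      intro h
      have h4 : W.natDegree = 0 := natDegree_eq_zero_iff_degree_le_zero.2 (le_of_eq h)
      rw [h4] at h2
      omega
    obtain ⟨ζ, hζ⟩ := IsAlgClosed.exists_root W h3
    exact ⟨(ζ, 1), by simp, by rw [← hW2]; exact hζ⟩

theorem cr_add_left (p q r : ℂ × ℂ) : cr (p + q) r = cr p r + cr q r := by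
  unfold cr
  simp only [Prod.fst_add, Prod.snd_add]
  ring

theorem cr_norm_le (p q : ℂ × ℂ) : ‖cr p q‖ ≤ 2 * (‖p‖ * ‖q‖) := by
  unfold cr
  have h1 : ‖p.1‖ * ‖q.2‖ ≤ ‖p‖ * ‖q‖ :=
    mul_le_mul (norm_fst_le p) (norm_snd_le q) (norm_nonneg _) (norm_nonneg _)
  have h2 : ‖p.2‖ * ‖q.1‖ ≤ ‖p‖ * ‖q‖ :=
    mul_le_mul (norm_snd_le p) (norm_fst_le q) (norm_nonneg _) (norm_nonneg _)
  calc ‖p.1 * q.2 - p.2 * q.1‖ ≤ ‖p.1 * q.2‖ + ‖p.2 * q.1‖ := norm_sub_le _ _
    _ = ‖p.1‖ * ‖q.2‖ + ‖p.2‖ * ‖q.1‖ := by rw [norm_mul, norm_mul]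
    _ ≤ _ := by linarith

/-- two vectors parallel to a nonzero vector are parallel -/
theorem cr_par {p q r : ℂ × ℂ} (hr : r ≠ 0) (h1 : cr p r = 0) (h2 : cr q r = 0) : cr p q = 0 := by
  have h3 : cr r q = 0 := by rw [cr_comm, h2, neg_zero]
  exact cr_trans hr h1 h3

theorem t_LIFT : S_LIFT := by
  intro d x hd hnd g y R hR hg hg0 hcrit q₀ hq₀ hq₀g
  obtain ⟨hwh, -, hwf⟩ := WR d x hd
  obtain ⟨c, hc0, hc⟩ := exists_crit x hd
  -- the complementary vector
  obtain ⟨e, he⟩ : ∃ e : ℂ × ℂ, cr c e ≠ 0 := by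
    by_cases h1 : c.1 = 0
    · refine ⟨(1, 0), ?_⟩
      have h2 : c.2 ≠ 0 := fun h2 => hc0 (Prod.ext h1 h2)
      unfold cr
      simpa [h1] using h2
    · refine ⟨(0, 1), ?_⟩
      unfold cr
      simpa using h1
  have hce : ∀ ζ : ℂ, cr c (ζ • c + e) = cr c e := by
    intro ζ
    rw [cr_comm, cr_add_left, cr_smul_left, cr_self, mul_zero, zero_add, ← cr_comm]
  have hne : ∀ ζ : ℂ, ζ • c + e ≠ 0 := by
    intro ζ h
    apply he
    rw [← hce ζ, h]
    simp [cr]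
  have hlead : ∀ w ∈ ball y R, cr (hF x c) (g w) ≠ 0 := fun w hw h => hcrit w hw c hc0 h hc
  -- the coordinate of the initial point
  have hq₀c : cr q₀ c ≠ 0 := by
    intro h
    obtain ⟨a, ha, rfl⟩ := (cr_eq_zero_iff hq₀ hc0).1 h
    apply hcrit y (mem_ball_self hR) _ hq₀ hq₀g
    rw [hwh, hc, mul_zero]
  obtain ⟨β, ζ₀, hβ, hq₀e⟩ : ∃ β ζ₀ : ℂ, β ≠ 0 ∧ q₀ = β • (ζ₀ • c + e) := by
    -- q₀ = α c + β e with α = cr q₀ e / cr c e, β = cr c q₀ / cr c e
    have hβ : cr c q₀ / cr c e ≠ 0 := by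
      apply div_ne_zero _ he
      rw [cr_comm]
      exact neg_ne_zero.2 hq₀c
    refine ⟨cr c q₀ / cr c e, (cr q₀ e / cr c e) / (cr c q₀ / cr c e), hβ, ?_⟩
    have h1 : q₀ = (cr q₀ e / cr c e) • c + (cr c q₀ / cr c e) • e := by
      have h2 : cr c e • q₀ = cr q₀ e • c + cr c q₀ • e := by
        apply Prod.ext
        · simp only [Prod.smul_fst, Prod.fst_add, smul_eq_mul, cr]
          ring
        · simp only [Prod.smul_snd, Prod.snd_add, smul_eq_mul, cr]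
          ring
      have h3 : q₀ = (cr c e)⁻¹ • (cr c e • q₀) := by
        rw [smul_smul, inv_mul_cancel₀ he, one_smul]
      calc q₀ = (cr c e)⁻¹ • (cr c e • q₀) := h3
        _ = (cr c e)⁻¹ • (cr q₀ e • c + cr c q₀ • e) := by rw [h2]
        _ = _ := by
          rw [smul_add, smul_smul, smul_smul, div_eq_inv_mul, div_eq_inv_mul]
    rw [smul_add, smul_smul, mul_div_cancel₀ _ hβ]
    exact h1
  have key := Pool.Agent.H713R3.ZA.root_holds ℂ (ball y R)
    (fun s z => cr (hF x (z • c + e)) (g s)) isOpen_ball (convex_ball y R) ?_ ?_ ?_ y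
    (mem_ball_self hR) ζ₀ ?_
  · obtain ⟨Z, h1, h2, h3, -⟩ := key
    refine ⟨fun w => Z w • c + e, ?_, ?_, ?_⟩
    · exact (h1.smul_const c).add_const e
    · intro w hw
      exact ⟨hne _, h3 w hw⟩
    · show cr (Z y • c + e) q₀ = 0
      rw [h2, hq₀e, cr_smul_right, cr_self, mul_zero]
  · -- smoothness
    have h1 : ContDiff ℂ 1 (fun p : ℂ × ℂ => hF x (p.2 • c + e)) :=
      (hF_contDiff1 x).comp ((contDiff_snd.smul contDiff_const).add contDiff_const)
    have h2 : ContDiffOn ℂ 1 (fun p : ℂ × ℂ => g p.1) (ball y R ×ˢ univ) :=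
      (hg.contDiffOn isOpen_ball).comp contDiff_fst.contDiffOn fun p hp => hp.1
    show ContDiffOn ℂ 1 (fun p : ℂ × ℂ => (hF x (p.2 • c + e)).1 * (g p.1).2 -
      (hF x (p.2 • c + e)).2 * (g p.1).1) (ball y R ×ˢ univ)
    exact (h1.contDiffOn.fst.mul h2.snd).sub (h1.contDiffOn.snd.mul h2.fst)
  · -- properness
    intro K hK hKc M
    by_cases hKe : K.Nonempty
    swap
    · exact ⟨0, fun s hs => absurd ⟨s, hs⟩ hKe⟩
    have hgc : ContinuousOn g K := hg.continuousOn.mono hK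
    obtain ⟨s₁, hs₁, hmin⟩ := hKc.exists_isMinOn hKe
      (f := fun s => ‖cr (hF x c) (g s)‖) (by
        apply ContinuousOn.norm
        unfold cr
        exact (continuousOn_const.mul hgc.snd).sub (continuousOn_const.mul hgc.fst))
    obtain ⟨s₂, hs₂, hmax⟩ := hKc.exists_isMaxOn hKe (f := fun s => ‖g s‖) hgc.norm
    set m : ℝ := ‖cr (hF x c) (g s₁)‖ with hm
    have hmpos : 0 < m := norm_pos_iff.2 (hlead s₁ (hK hs₁))
    set G0 : ℝ := ‖g s₂‖ with hG0
    have hG0n : 0 ≤ G0 := norm_nonneg _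
    -- behaviour near infinity
    have hcont : Tendsto (fun ε : ℂ => hF x (c + ε • e)) (𝓝 0) (𝓝 (hF x c)) := by
      have h1 : Continuous (fun ε : ℂ => hF x (c + ε • e)) :=
        (hF_contDiff1 x).continuous.comp (continuous_const.add (continuous_id.smul continuous_const))
      have h2 := h1.tendsto 0
      simpa using h2
    have hη : 0 < m / (4 * (G0 + 1)) := by positivity
    obtain ⟨δ, hδ, hδ2⟩ := Metric.tendsto_nhds_nhds.1 hcont (m / (4 * (G0 + 1))) hη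
    refine ⟨max (max 1 (2 / δ)) (2 * (|M| + 1) / m), fun s hs z hz => ?_⟩
    by_contra hlt
    rw [not_le, max_lt_iff, max_lt_iff] at hlt
    obtain ⟨⟨hz1, hz2⟩, hz3⟩ := hlt
    have hz0 : z ≠ 0 := by
      intro h
      rw [h, norm_zero] at hz1
      linarith
    have hzpos : 0 < ‖z‖ := norm_pos_iff.2 hz0
    have h1 : z • c + e = z • (c + z⁻¹ • e) := by
      rw [smul_add, smul_smul, mul_inv_cancel₀ hz0, one_smul]
    have h2 : dist (hF x (c + z⁻¹ • e)) (hF x c) < m / (4 * (G0 + 1)) := by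
      apply hδ2
      rw [dist_zero_right, norm_inv]
      rw [div_lt_iff₀ hδ] at hz2
      rw [inv_lt_comm₀ hzpos hδ, inv_eq_one_div, div_lt_iff₀ hδ]
      linarith
    rw [dist_eq_norm] at h2
    have h3 : ‖cr (hF x (c + z⁻¹ • e)) (g s)‖ ≥ m / 2 := by
      have e1 : hF x (c + z⁻¹ • e) = hF x c + (hF x (c + z⁻¹ • e) - hF x c) := by abel
      have e2 : cr (hF x (c + z⁻¹ • e)) (g s) = cr (hF x c) (g s) +
          cr (hF x (c + z⁻¹ • e) - hF x c) (g s) := by
        conv_lhs => rw [e1]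
        exact cr_add_left _ _ _
      have e3 : m ≤ ‖cr (hF x c) (g s)‖ := hmin hs
      have e4 : ‖g s‖ ≤ G0 := hmax hs
      have e5 := cr_norm_le (hF x (c + z⁻¹ • e) - hF x c) (g s)
      have e6 : ‖hF x (c + z⁻¹ • e) - hF x c‖ * ‖g s‖ ≤ m / (4 * (G0 + 1)) * G0 :=
        mul_le_mul h2.le e4 (norm_nonneg _) hη.le
      have e7 : m / (4 * (G0 + 1)) * G0 ≤ m / 4 := by
        rw [div_mul_eq_mul_div, div_le_div_iff₀ (by positivity) (by positivity)]
        nlinarith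
      rw [e2]
      have e8 := norm_sub_le (cr (hF x c) (g s) + cr (hF x (c + z⁻¹ • e) - hF x c) (g s))
        (cr (hF x (c + z⁻¹ • e) - hF x c) (g s))
      rw [add_sub_cancel_right] at e8
      linarith
    have hz' : ‖cr (hF x (z • c + e)) (g s)‖ ≤ M := hz
    rw [h1, hF_smul, cr_smul_left, norm_mul, norm_pow] at hz'
    have h4 : ‖z‖ ≤ ‖z‖ ^ d := by
      calc ‖z‖ = ‖z‖ ^ 1 := (pow_one _).symm
        _ ≤ ‖z‖ ^ d := pow_le_pow_right₀ hz1.le (by omega)
    have h5 : ‖z‖ * (m / 2) ≤ M :=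
      le_trans (mul_le_mul h4 h3 (by positivity) (by positivity)) hz'
    rw [div_lt_iff₀ hmpos] at hz3
    have h6 := le_abs_self M
    nlinarith
  · -- simple roots
    intro s hs z hz
    have hz' : cr (hF x (z • c + e)) (g s) = 0 := hz
    set p : ℂ × ℂ := z • c + e with hp
    have hd1 : HasDerivAt (fun z : ℂ => z • c + e) c z := by
      simpa using ((hasDerivAt_id z).smul_const c).add_const e
    have hd0 : HasFDerivAt (hF x) (fderiv ℂ (hF x) p) p :=
      ((hF_contDiff1 x).differentiable (by norm_num) p).hasFDerivAt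
    have hd2 : HasDerivAt (hF x ∘ fun z : ℂ => z • c + e) (fderiv ℂ (hF x) p c) z :=
      HasFDerivAt.comp_hasDerivAt z hd0 hd1
    have hfst : HasDerivAt (fun z : ℂ => (hF x (z • c + e)).1) (fderiv ℂ (hF x) p c).1 z :=
      HasFDerivAt.comp_hasDerivAt z (ContinuousLinearMap.fst ℂ ℂ ℂ).hasFDerivAt hd2
    have hsnd : HasDerivAt (fun z : ℂ => (hF x (z • c + e)).2) (fderiv ℂ (hF x) p c).2 z :=
      HasFDerivAt.comp_hasDerivAt z (ContinuousLinearMap.snd ℂ ℂ ℂ).hasFDerivAt hd2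
    have hd3 : HasDerivAt (fun z : ℂ => cr (hF x (z • c + e)) (g s))
        (cr (fderiv ℂ (hF x) p c) (g s)) z :=
      (hfst.mul_const (g s).2).sub (hsnd.mul_const (g s).1)
    show deriv (fun z : ℂ => cr (hF x (z • c + e)) (g s)) z ≠ 0
    rw [hd3.deriv]
    intro h0
    have h1 : cr (fderiv ℂ (hF x) p p) (g s) = 0 := by
      rw [euler, cr_smul_left, hz', mul_zero]
    have h2 := cr_par (hg0 s hs) h0 h1
    rw [hwf] at h2
    rcases mul_eq_zero.1 h2 with h | h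
    · exact hcrit s hs p (hne z) hz' h
    · exact he (by rw [← hce z]; exact h)
  · show cr (hF x (ζ₀ • c + e)) (g y) = 0
    rw [hq₀e, hF_smul, cr_smul_left] at hq₀g
    exact (mul_eq_zero.1 hq₀g).resolve_left (pow_ne_zero _ hβ)

end Pool.Agent.H51.HY211
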