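import Pool.Agent.H211.HY.Stm4
import Pool.Agent.H211.AD.RFin
import Pool.Agent.H335.HY211.ALG
import Pool.Graph.R_seed8.H790R3.RB.TSP

/-!
# Project HY (helper211), task ATQ: the normalised case, from the density theorem
-/

set_option autoImplicit false

open Topology Filter Metric Set MeasureTheory Polynomial
open scoped OnePoint ENNReal

namespace Pool.Agent.H51.HY211

open Pool.Agent.H790R3.RB Pool.Agent.H211.HY
open Pool.Agent.H211.LR (EE PP QQ GoodR rbad PP_deg QQ_deg)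

/-- The two notions of the polynomial with given coefficients agree. -/
theorem PP_eq {d : ℕ} (x : CV d) : PP x = Pool.Agent.H790R3.RB.pol x 0 := by
  unfold Pool.Agent.H211.LR.PP Pool.Agent.H211.LD.pol Pool.Agent.H790R3.RB.pol
  refine Finset.sum_congr rfl fun j _ => ?_
  exact C_mul_X_pow_eq_monomial

theorem QQ_eq {d : ℕ} (x : CV d) : QQ x = Pool.Agent.H790R3.RB.pol x 1 := by
  unfold Pool.Agent.H211.LR.QQ Pool.Agent.H211.LD.pol Pool.Agent.H790R3.RB.pol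
  refine Finset.sum_congr rfl fun j _ => ?_
  exact C_mul_X_pow_eq_monomial

/-- A coefficient vector is determined by its polynomials. -/
theorem CV_ext {d : ℕ} {x y : CV d} (h0 : Pool.Agent.H790R3.RB.pol x 0 = Pool.Agent.H790R3.RB.pol y 0)
    (h1 : Pool.Agent.H790R3.RB.pol x 1 = Pool.Agent.H790R3.RB.pol y 1) : x = y := by
  funext ⟨i, j⟩
  have h : ∀ i : Fin 2, Pool.Agent.H790R3.RB.pol x i = Pool.Agent.H790R3.RB.pol y i := by
    intro i
    fin_cases i
    · exact h0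
    · exact h1
  rw [← PQ.pol_coeff x i j, ← PQ.pol_coeff y i j, h i]

/-- Near a point of density zero of the bad set there are good points. -/
theorem exists_good {d : ℕ} {x : EE d}
    (h : Tendsto (fun r : ℝ => volume (rbad d ∩ ball x r) / volume (ball x r)) (𝓝[>] 0) (𝓝 0))
    {ε : ℝ} (hε : 0 < ε) : ∃ z : EE d, ‖z - x‖ < ε ∧ z ∉ rbad d := by
  have h1 : ∀ᶠ r : ℝ in 𝓝[>] 0, volume (rbad d ∩ ball x r) / volume (ball x r) < 1 :=
    h.eventually (gt_mem_nhds zero_lt_one)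
  have h2 : ∀ᶠ r : ℝ in 𝓝[>] 0, r ∈ Ioo (0 : ℝ) ε := Ioo_mem_nhdsGT hε
  obtain ⟨r, h3, h4⟩ := (h1.and h2).exists
  by_contra hcon
  push Not at hcon
  have h5 : rbad d ∩ ball x r = ball x r := by
    refine inter_eq_right.mpr fun z hz => ?_
    refine hcon z ?_
    rw [← dist_eq_norm]
    exact lt_trans (mem_ball.mp hz) h4.2
  rw [h5, ENNReal.div_self (measure_ball_pos volume x h4.1).ne' measure_ball_lt_top.ne] at h3
  exact lt_irrefl _ h3

theorem t_ATQ (hATP : S_ATP) : S_ATQ := by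
  intro d x hd hnd hatn hcrit ε hε
  obtain ⟨hdeg, hinf, hcr⟩ := hATP d x hd hnd hatn
  have hPQ := PQ SP d (by omega)
  obtain ⟨hcop, -, -, -, -⟩ := hPQ.1 x hnd
  have hCE : ∀ c : ℂ, (Pool.Agent.H792R2.CE.wr (PP x) (QQ x)).eval c = 0 →
      Pool.Agent.H792R2.CE.Att d (PP x) (QQ x) (c : OnePoint ℂ) ∨
      ∃ μ : ℝ, 1 < μ ∧ ∀ᶠ n : ℕ in atTop,
        μ ^ n ≤ ‖deriv ((Pool.Agent.H792R2.CE.rf (PP x) (QQ x))^[n])
          (Pool.Agent.H792R2.CE.rf (PP x) (QQ x) c)‖ := by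
    intro c hc
    rw [PP_eq, QQ_eq] at hc ⊢
    refine hcr c (hcrit (c, 1) (fun h => one_ne_zero (congrArg Prod.snd h)) ?_)
    rw [Pool.Agent.H335.HY211.wr_one]
    have h1 : (Wp (Pool.Agent.H790R3.RB.pol x 0) (Pool.Agent.H790R3.RB.pol x 1)).eval c = 0 := hc
    rw [h1, mul_zero]
  have hfin := Pool.Agent.H211.AD.rfinal hd (x₀ := x) (by rw [PP_eq, QQ_eq]; exact hcop)
    (by rw [QQ_eq]; exact hdeg) (by rw [PP_eq, QQ_eq]; exact hinf) hCE
  obtain ⟨z, hz, hgood⟩ := exists_good hfin.2.2 hε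
  have hG : GoodR d (PP z) (QQ z) := by
    by_contra h
    exact hgood h
  obtain ⟨hc, hmax, f, hf, hfz, hhyp⟩ := Pool.Agent.H211.LR.good_hyp hd hG
  obtain ⟨y, hy, hy0, hy1, hfy⟩ := hPQ.2 (PP z) (QQ z) hc hmax
  have hyz : y = z := CV_ext (by rw [hy0, PP_eq]) (by rw [hy1, QQ_eq])
  have hfs : f = sp y := hfy f hf hfz
  refine ⟨z, hz, by rw [← hyz]; exact hy, ?_⟩
  rw [← hyz, ← hfs]
  exact hhyp

end Pool.Agent.H51.HY211
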